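import Mathlib
import Pool.Graph.R_seed8.Results.MP_61d686_an.MinimalFast

set_option autoImplicit false

/-!
# Minimal representations of Cantorvals from complete residue systems

Let `a 0 ≥ a 1 ≥ ⋯ ≥ a (k-1) > 0` be integers whose subset sums form a complete residue system
modulo `q = 2 ^ k`, and let `x` be the sequence of all `a i / q ^ m`.  If
`(q - 1) a (k-1) > a 0 + ⋯ + a (k-1)` then the achievement set is a Cantorval and `x` is a minimal
representation of it; `x n < r (n+1)` holds infinitely often if it holds for one index `n ≤ k - 2`.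
-/

namespace Pool.Agent.Results.MP_61d686_an.CompleteResidueDigits

open Pool.Agent.R559.Achieve Finset
open scoped Pointwise
open Pool.Agent.Results.MP_61d686_an.MinimalFast (subsums IsCantorval IsRepresentation IsMinimal
  tail)

/-- The sequence `a 0, …, a (k-1), a 0 / 2^k, …, a (k-1) / 2^k, a 0 / 4^k, …`. -/
noncomputable def x (k : ℕ) (a : ℕ → ℕ) (n : ℕ) : ℝ := (a (n % k) : ℝ) / (2 ^ k) ^ (n / k)

/-- The conditions on the digits. -/
structure Digits (k : ℕ) (a : ℕ → ℕ) : Prop where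
  hk : 0 < k
  hpos : ∀ i < k, 0 < a i
  hanti : ∀ i, i + 1 < k → a (i + 1) ≤ a i
  hwrap : a 0 ≤ 2 ^ k * a (k - 1)
  hres : ∀ r < 2 ^ k, ∃ G ⊆ range k, (∑ i ∈ G, a i) % 2 ^ k = r
  hgap : ∑ i ∈ range k, a i < (2 ^ k - 1) * a (k - 1)

variable {k : ℕ} {a : ℕ → ℕ}

theorem x_shift (hk : 0 < k) (n m : ℕ) : x k a (n + k * m) = x k a n / (2 ^ k) ^ m := by
  unfold x
  rw [Nat.add_mul_mod_self_left, Nat.add_mul_div_left _ _ hk, pow_add, div_div]

theorem x_small (i : ℕ) (hi : i < k) : x k a i = a i := by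
  unfold x
  rw [Nat.mod_eq_of_lt hi, Nat.div_eq_of_lt hi, pow_zero, div_one]

theorem x_pos (h : Digits k a) (n : ℕ) : 0 < x k a n := by
  unfold x
  have h1 := h.hpos (n % k) (Nat.mod_lt _ h.hk)
  have h2 : (0 : ℝ) < a (n % k) := by exact_mod_cast h1
  positivity

theorem x_antitone (h : Digits k a) : Antitone (x k a) := by
  apply antitone_nat_of_succ_le
  intro n
  obtain ⟨m, r, hr, rfl⟩ : ∃ m r, r < k ∧ n = r + k * m :=
    ⟨n / k, n % k, Nat.mod_lt _ h.hk, by rw [Nat.add_comm]; exact (Nat.div_add_mod n k).symm⟩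
  have hp : (0 : ℝ) < (2 ^ k) ^ m := by positivity
  by_cases hr1 : r + 1 < k
  · rw [show r + k * m + 1 = (r + 1) + k * m by ring, x_shift h.hk, x_shift h.hk, x_small _ hr,
      x_small _ hr1]
    have : (a (r + 1) : ℝ) ≤ a r := by exact_mod_cast h.hanti r hr1
    gcongr
  · have hrk : r + 1 = k := by omega
    have h1 : r + k * m + 1 = 0 + k * (m + 1) := by rw [mul_add, mul_one]; omega
    rw [h1, x_shift h.hk, x_shift h.hk, x_small _ hr, x_small _ h.hk, pow_succ', ← div_div]
    have h2 : (a 0 : ℝ) ≤ 2 ^ k * a r := by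
      have := h.hwrap
      rw [show k - 1 = r by omega] at this
      exact_mod_cast this
    have h3 : (a 0 : ℝ) / 2 ^ k ≤ a r := by
      rw [div_le_iff₀ (by positivity)]; linarith
    gcongr

theorem x_summable (h : Digits k a) : Summable (x k a) := by
  refine Summable.of_nonneg_of_le (fun n => (x_pos h n).le) (fun n => ?_)
    ((summable_geometric_of_lt_one (r := (1 / 2 : ℝ)) (by norm_num) (by norm_num)).mul_left
      ((a 0 : ℝ) * 2 ^ k))
  have h0 : (a (n % k) : ℝ) ≤ a 0 := by
    have : x k a (n % k) ≤ x k a 0 := x_antitone h (Nat.zero_le _)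
    rwa [x_small _ (Nat.mod_lt _ h.hk), x_small _ h.hk] at this
  unfold x
  have h1 : (2 : ℝ) ^ n ≤ 2 ^ k * (2 ^ k) ^ (n / k) := by
    rw [← pow_mul, ← pow_add]
    refine pow_le_pow_right₀ (by norm_num) ?_
    have h2 := Nat.div_add_mod n k
    have h3 := Nat.mod_lt n h.hk
    omega
  have h2 : (0 : ℝ) ≤ a (n % k) := by positivity
  have h3 : (0 : ℝ) < (2 ^ k) ^ (n / k) := by positivity
  have h4 : (0 : ℝ) < 2 ^ n := by positivity
  rw [one_div, inv_pow, ← div_eq_mul_inv, div_le_div_iff₀ h3 h4]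
  calc (a (n % k) : ℝ) * 2 ^ n ≤ a 0 * (2 ^ k * (2 ^ k) ^ (n / k)) :=
        mul_le_mul h0 h1 h4.le (by positivity)
    _ = a 0 * 2 ^ k * (2 ^ k) ^ (n / k) := by ring

/-- the total of the sequence -/
noncomputable def T (k : ℕ) (a : ℕ → ℕ) : ℝ := ∑' n, x k a n

theorem one_lt_q (h : Digits k a) : (1 : ℝ) < 2 ^ k := one_lt_pow₀ (by norm_num) h.hk.ne'

theorem T_eq (h : Digits k a) : T k a = (∑ i ∈ range k, (a i : ℝ)) + T k a / 2 ^ k := by
  have h0 := (x_summable h).sum_add_tsum_nat_add k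
  have h1 : ∑' n, x k a (n + k) = T k a / 2 ^ k := by
    unfold T
    rw [← tsum_div_const]
    refine tsum_congr fun n => ?_
    have := x_shift (a := a) h.hk n 1
    simpa using this
  have h2 : ∑ i ∈ range k, x k a i = ∑ i ∈ range k, (a i : ℝ) :=
    sum_congr rfl fun i hi => x_small i (mem_range.1 hi)
  have h3 : T k a = ∑' n, x k a n := rfl
  rw [h1, h2, ← h3] at h0
  exact h0.symm

theorem T_pos (h : Digits k a) : 0 < T k a := (x_summable h).tsum_pos (fun n => (x_pos h n).le) 0
  (x_pos h 0)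

/-- the tail after the first block is smaller than the last digit -/
theorem tau_lt (h : Digits k a) : T k a / 2 ^ k < a (k - 1) := by
  have h1 := T_eq h
  have h2 := one_lt_q h
  have h3 : (∑ i ∈ range k, (a i : ℝ)) < (2 ^ k - 1) * a (k - 1) := by
    have := h.hgap
    have h4 : ((∑ i ∈ range k, a i : ℕ) : ℝ) < (((2 ^ k - 1) * a (k - 1) : ℕ) : ℝ) := by
      exact_mod_cast this
    rw [Nat.cast_mul, Nat.cast_sub Nat.one_le_two_pow] at h4
    push_cast at h4
    exact h4
  have h5 : T k a = T k a / 2 ^ k * 2 ^ k := by field_simp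
  set s := T k a / 2 ^ k
  have h6 : (2 ^ k - 1) * s < (2 ^ k - 1) * a (k - 1) := by nlinarith
  exact lt_of_mul_lt_mul_left h6 (by linarith)

theorem tsum_tail (hk : 0 < k) (m : ℕ) : ∑' n, x k a (n + k * m) = T k a / (2 ^ k) ^ m := by
  unfold T
  rw [← tsum_div_const]
  exact tsum_congr fun n => x_shift hk n m

theorem fun_shift (hk : 0 < k) (m : ℕ) :
    (fun n => x k a (n + k * m)) = fun n => x k a n / (2 ^ k) ^ m :=
  funext fun n => x_shift hk n m

theorem E_le {f : ℕ → ℝ} (hpos : ∀ n, 0 < f n) (hf : Summable f) (s : ℝ) (hs : s ∈ E f) :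
    s ≤ ∑' n, f n := by
  have := gE_nonneg hpos _ (gE_symm hf s hs)
  linarith

theorem E_scale (hk : 0 < k) (m : ℕ) (u : ℝ) (hu : u ∈ E (x k a)) :
    u / (2 ^ k) ^ m ∈ E (fun n => x k a (n + k * m)) := by
  obtain ⟨A, rfl⟩ := hu
  refine ⟨A, ?_⟩
  rw [fun_shift hk, ← tsum_div_const]
  refine tsum_congr fun n => ?_
  by_cases h : n ∈ A <;> simp [h]

/-- a number between the tail and the last digit -/
noncomputable def w0 (k : ℕ) (a : ℕ → ℕ) : ℝ := (T k a / 2 ^ k + a (k - 1)) / 2

/-- there are points arbitrarily close to `0` which are not sums -/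
theorem not_mem (h : Digits k a) (m : ℕ) : w0 k a / (2 ^ k) ^ m ∉ E (x k a) := by
  intro hE
  have hp : (0 : ℝ) < (2 ^ k) ^ m := by positivity
  have htau := tau_lt h
  obtain ⟨F, hF, e, he, heq⟩ := gE_dec (x_summable h) (k * (m + 1)) _ hE
  have hsm : Summable (fun n => x k a (n + k * (m + 1))) :=
    (summable_nat_add_iff (k * (m + 1))).2 (x_summable h)
  have he0 : 0 ≤ e := gE_nonneg (fun n => x_pos h _) e he
  rcases F.eq_empty_or_nonempty with hE | ⟨i, hi⟩
  · subst hE
    have he1 : e ≤ T k a / (2 ^ k) ^ (m + 1) := by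
      rw [← tsum_tail h.hk]
      exact E_le (fun n => x_pos h _) hsm e he
    rw [Finset.sum_empty, zero_add] at heq
    rw [← heq, pow_succ', ← div_div, div_le_div_iff_of_pos_right hp] at he1
    unfold w0 at he1
    linarith
  · have h1 : x k a i ≤ ∑ j ∈ F, x k a j :=
      Finset.single_le_sum (fun j _ => (x_pos h j).le) hi
    have h2 : i < k * (m + 1) := Finset.mem_range.1 (hF hi)
    have h3 : x k a ((k - 1) + k * m) ≤ x k a i := x_antitone h (by
      rw [mul_add, mul_one] at h2
      have := h.hk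
      omega)
    rw [x_shift h.hk, x_small _ (by have := h.hk; omega)] at h3
    have h4 : (a (k - 1) : ℝ) / (2 ^ k) ^ m ≤ w0 k a / (2 ^ k) ^ m := by linarith
    rw [div_le_div_iff_of_pos_right hp] at h4
    unfold w0 at h4
    linarith

theorem pow_small (h : Digits k a) {ε : ℝ} (hε : 0 < ε) (c : ℝ) (hc : 0 < c) :
    ∃ m : ℕ, c / (2 ^ k) ^ m < ε := by
  have hq := one_lt_q h
  obtain ⟨m, hm⟩ := exists_pow_lt_of_lt_one (show 0 < ε / c by positivity)
    (show (1 / 2 ^ k : ℝ) < 1 by rw [div_lt_one (by linarith)]; exact hq)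
  refine ⟨m, ?_⟩
  rw [one_div, inv_pow, lt_div_iff₀ hc] at hm
  rw [div_eq_mul_inv, mul_comm]
  exact hm

theorem H (h : Digits k a) : ∀ δ > 0, ∃ w, 0 < w ∧ w < δ ∧ w ∉ E (x k a) := by
  intro δ hδ
  have h1 : 0 < w0 k a := by
    unfold w0
    have h2 := T_pos h
    have h3 : (0 : ℝ) ≤ a (k - 1) := by positivity
    positivity
  obtain ⟨m, hm⟩ := pow_small h hδ (w0 k a) h1
  exact ⟨w0 k a / (2 ^ k) ^ m, by positivity, hm, not_mem h m⟩

/-! ### Interior points -/

theorem expand (h : Digits k a) (n : ℕ) : ∀ m : ℤ,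
    ∃ F : Finset ℕ, F ⊆ Finset.range (k * (n + 1)) ∧
      ∃ z : ℤ, ∑ i ∈ F, x k a i + z = (m : ℝ) / (2 ^ k) ^ n := by
  induction n with
  | zero => exact fun m => ⟨∅, by simp, m, by simp⟩
  | succ n ih =>
    intro m
    have hq0 : (0 : ℤ) < 2 ^ k := by positivity
    obtain ⟨G, hG, hGr⟩ := h.hres (m % 2 ^ k).toNat (by
      have h1 := Int.emod_lt_of_pos m hq0
      have h2 := Int.emod_nonneg m hq0.ne'
      have : ((m % 2 ^ k).toNat : ℤ) < ((2 ^ k : ℕ) : ℤ) := by
        rw [Int.toNat_of_nonneg h2]; push_cast; exact h1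
      exact_mod_cast this)
    obtain ⟨m', hm'⟩ : ∃ m' : ℤ, m = 2 ^ k * m' + (∑ i ∈ G, a i : ℕ) := by
      have h1 : ((∑ i ∈ G, a i : ℕ) : ℤ) % 2 ^ k = m % 2 ^ k := by
        have h2 : (((∑ i ∈ G, a i : ℕ) % 2 ^ k : ℕ) : ℤ) = ((m % 2 ^ k).toNat : ℤ) := by
          exact_mod_cast hGr
        rw [Int.toNat_of_nonneg (Int.emod_nonneg m hq0.ne')] at h2
        rw [← h2]; push_cast; rfl
      have h3 : (2 ^ k : ℤ) ∣ m - (∑ i ∈ G, a i : ℕ) := by
        apply Int.dvd_of_emod_eq_zero
        rw [Int.sub_emod, h1, sub_self, Int.zero_emod]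
      obtain ⟨m', hm'⟩ := h3
      exact ⟨m', by linarith⟩
    obtain ⟨F, hF, z, hz⟩ := ih m'
    have hdisj : Disjoint F (G.image (fun i => i + k * (n + 1))) := by
      rw [Finset.disjoint_left]
      intro b hb hb'
      rw [Finset.mem_image] at hb'
      obtain ⟨i, _, rfl⟩ := hb'
      have := Finset.mem_range.1 (hF hb)
      omega
    refine ⟨F ∪ G.image (fun i => i + k * (n + 1)), ?_, z, ?_⟩
    · intro b hb
      rw [Finset.mem_union, Finset.mem_image] at hb
      rw [Finset.mem_range]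
      have hkk : k * (n + 1 + 1) = k * (n + 1) + k := by ring
      rcases hb with hb | ⟨i, hi, rfl⟩
      · have := Finset.mem_range.1 (hF hb)
        omega
      · have := Finset.mem_range.1 (hG hi)
        omega
    · rw [Finset.sum_union hdisj, Finset.sum_image (by intro a _ b _ h; simpa using h)]
      have h3 : ∑ i ∈ G, x k a (i + k * (n + 1))
          = ((∑ i ∈ G, a i : ℕ) : ℝ) / (2 ^ k) ^ (n + 1) := by
        rw [Nat.cast_sum, Finset.sum_div]
        refine Finset.sum_congr rfl fun i hi => ?_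
        rw [x_shift h.hk, x_small _ (Finset.mem_range.1 (hG hi))]
      rw [h3, hm', pow_succ]
      push_cast
      have hz' : ∑ i ∈ F, x k a i = (m' : ℝ) / (2 ^ k) ^ n - z := by linarith
      rw [hz']
      field_simp
      ring

theorem exists_interval (h : Digits k a) : ∃ u v : ℝ, u < v ∧ Set.Icc u v ⊆ E (x k a) := by
  have hcpt := gE_compact (x_pos h) (x_summable h)
  have hcover : (⋃ z : ℤ, (fun t : ℝ => t - z) ⁻¹' E (x k a)) = Set.univ := by
    have hclosed : IsClosed (⋃ z : ℤ, (fun t : ℝ => t - z) ⁻¹' E (x k a)) := by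
      have : (⋃ z : ℤ, (fun t : ℝ => t - z) ⁻¹' E (x k a))
          = E (x k a) + Set.range (fun z : ℤ => (z : ℝ)) := by
        ext t
        simp only [Set.mem_iUnion, Set.mem_preimage, Set.mem_add, Set.mem_range]
        constructor
        · rintro ⟨z, hz⟩
          exact ⟨_, hz, _, ⟨z, rfl⟩, by ring⟩
        · rintro ⟨s, hs, _, ⟨z, rfl⟩, rfl⟩
          exact ⟨z, by simpa using hs⟩
      rw [this]
      exact Int.isClosedEmbedding_coe_real.isClosed_range.add_left_of_isCompact hcpt
    rw [← hclosed.closure_eq, Set.eq_univ_iff_forall]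
    intro t
    rw [Metric.mem_closure_iff]
    intro ε hε
    obtain ⟨n, hn⟩ := pow_small h hε 1 one_pos
    have hp : (0 : ℝ) < (2 ^ k) ^ n := by
      have := one_lt_q h
      positivity
    obtain ⟨F, hF, z, hz⟩ := expand h n ⌊t * (2 ^ k) ^ n⌋
    refine ⟨(⌊t * (2 ^ k) ^ n⌋ : ℝ) / (2 ^ k) ^ n, ?_, ?_⟩
    · rw [Set.mem_iUnion]
      refine ⟨z, ?_⟩
      change (⌊t * (2 ^ k) ^ n⌋ : ℝ) / (2 ^ k) ^ n - z ∈ E (x k a)
      rw [← hz, add_sub_cancel_right]
      have := gE_cons (x_summable h) (k * (n + 1)) F hF 0 ⟨∅, by simp⟩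
      simpa using this
    · have h3 := Int.floor_le (t * (2 ^ k) ^ n)
      have h4 := Int.lt_floor_add_one (t * (2 ^ k) ^ n)
      rw [Real.dist_eq]
      have h5 : t - (⌊t * (2 ^ k) ^ n⌋ : ℝ) / (2 ^ k) ^ n
          = (t * (2 ^ k) ^ n - ⌊t * (2 ^ k) ^ n⌋) / (2 ^ k) ^ n := by
        field_simp
      rw [h5, abs_of_nonneg (div_nonneg (by linarith) hp.le)]
      refine lt_of_le_of_lt ?_ hn
      rw [div_le_div_iff_of_pos_right hp]
      linarith
  obtain ⟨z, hz⟩ := nonempty_interior_of_iUnion_of_closed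
    (fun z : ℤ => hcpt.isClosed.preimage (by fun_prop : Continuous fun t : ℝ => t - (z : ℝ)))
    hcover
  obtain ⟨t, ht⟩ := hz
  rw [mem_interior_iff_mem_nhds, Metric.mem_nhds_iff] at ht
  obtain ⟨ε, hε, hball⟩ := ht
  refine ⟨t - z - ε / 2, t - z + ε / 2, by linarith, ?_⟩
  intro s hs
  have : s + z ∈ Metric.ball t ε := by
    rw [Metric.mem_ball, Real.dist_eq, abs_lt]
    constructor <;> linarith [hs.1, hs.2]
  have h2 := hball this
  simpa using h2

theorem regular (h : Digits k a) : closure (interior (E (x k a))) = E (x k a) := by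
  have hcl : IsClosed (E (x k a)) := (gE_compact (x_pos h) (x_summable h)).isClosed
  obtain ⟨u, v, huv, hint⟩ := exists_interval h
  have hmid : (u + v) / 2 ∈ E (x k a) := hint ⟨by linarith, by linarith⟩
  have hmid0 : 0 ≤ (u + v) / 2 := gE_nonneg (x_pos h) _ hmid
  have hmid1 : (u + v) / 2 ≤ T k a := E_le (x_pos h) (x_summable h) _ hmid
  apply Set.Subset.antisymm
  · exact closure_minimal interior_subset hcl
  · intro s hs
    rw [Metric.mem_closure_iff]
    intro ε hε
    obtain ⟨m, hm⟩ := pow_small h hε (T k a) (T_pos h)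
    have hp : (0 : ℝ) < (2 ^ k) ^ m := by positivity
    obtain ⟨F, hF, e, he, heq⟩ := gE_dec (x_summable h) (k * m) s hs
    have hsm : Summable (fun n => x k a (n + k * m)) :=
      (summable_nat_add_iff (k * m)).2 (x_summable h)
    have he0 : 0 ≤ e := gE_nonneg (fun n => x_pos h _) e he
    have he1 : e ≤ T k a / (2 ^ k) ^ m := by
      rw [← tsum_tail h.hk]
      exact E_le (fun n => x_pos h _) hsm e he
    refine ⟨∑ i ∈ F, x k a i + (u + v) / 2 / (2 ^ k) ^ m, ?_, ?_⟩
    · rw [mem_interior]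
      refine ⟨Set.Ioo (∑ i ∈ F, x k a i + u / (2 ^ k) ^ m) (∑ i ∈ F, x k a i + v / (2 ^ k) ^ m), ?_,
        isOpen_Ioo, ?_, ?_⟩
      · intro z hz
        have h1 : (z - ∑ i ∈ F, x k a i) * (2 ^ k) ^ m ∈ E (x k a) := by
          apply hint
          have ha := hz.1
          have hb := hz.2
          constructor
          · have : u / (2 ^ k) ^ m < z - ∑ i ∈ F, x k a i := by linarith
            rw [div_lt_iff₀ hp] at this
            exact this.le
          · have : z - ∑ i ∈ F, x k a i < v / (2 ^ k) ^ m := by linarith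
            rw [lt_div_iff₀ hp] at this
            exact this.le
        have h2 := E_scale h.hk m _ h1
        rw [mul_div_cancel_right₀ _ hp.ne'] at h2
        have h3 := gE_cons (x_summable h) (k * m) F hF _ h2
        simpa using h3
      · have : u / (2 ^ k) ^ m < (u + v) / 2 / (2 ^ k) ^ m :=
          (div_lt_div_iff_of_pos_right hp).2 (by linarith)
        linarith
      · have : (u + v) / 2 / (2 ^ k) ^ m < v / (2 ^ k) ^ m :=
          (div_lt_div_iff_of_pos_right hp).2 (by linarith)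
        linarith
    · rw [heq, Real.dist_eq]
      have h6 : (u + v) / 2 / (2 ^ k) ^ m ≤ T k a / (2 ^ k) ^ m :=
        (div_le_div_iff_of_pos_right hp).2 hmid1
      have h60 : (0 : ℝ) ≤ (u + v) / 2 / (2 ^ k) ^ m := by positivity
      rw [abs_lt]
      constructor <;> linarith

/-! ### Deleting infinitely many terms gives a null set -/

theorem null_of_infinite (h : Digits k a) (A : Set ℕ) (hA : A.Infinite) :
    MeasureTheory.volume {s : ℝ | ∃ B : Set ℕ, B ⊆ Aᶜ ∧ s = ∑' n, B.indicator (x k a) n} = 0 := by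
  classical
  have hT := T_pos h
  have key : ∀ j : ℕ,
      MeasureTheory.volume {s : ℝ | ∃ B : Set ℕ, B ⊆ Aᶜ ∧ s = ∑' n, B.indicator (x k a) n}
        ≤ ENNReal.ofReal (T k a / 2 ^ j) := by
    intro j
    obtain ⟨t, htA, htc⟩ := hA.exists_subset_card_eq j
    set m := t.sup id + 1 with hm
    have htk : t ⊆ Finset.range (k * m) := by
      intro i hi
      rw [Finset.mem_range]
      have h1 : i ≤ t.sup id := Finset.le_sup (f := id) hi
      have h2 : m ≤ k * m := Nat.le_mul_of_pos_left m h.hk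
      omega
    have hp : (0 : ℝ) < (2 ^ k) ^ m := by positivity
    set P := ((Finset.range (k * m)).filter (· ∉ A)) with hP
    have hcard : P.card + j ≤ k * m := by
      have h1 : Disjoint P t := by
        rw [Finset.disjoint_left]
        intro a ha hb
        exact (Finset.mem_filter.1 ha).2 (htA hb)
      have h2 : P ∪ t ⊆ Finset.range (k * m) :=
        Finset.union_subset (Finset.filter_subset _ _) htk
      have h3 := Finset.card_le_card h2
      rw [Finset.card_union_of_disjoint h1, Finset.card_range, htc] at h3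
      exact h3
    have hsub : {s : ℝ | ∃ B : Set ℕ, B ⊆ Aᶜ ∧ s = ∑' n, B.indicator (x k a) n} ⊆
        ⋃ F ∈ P.powerset, Set.Icc (∑ i ∈ F, x k a i) (∑ i ∈ F, x k a i + T k a / (2 ^ k) ^ m) := by
      rintro s ⟨B, hB, rfl⟩
      simp only [Set.mem_iUnion]
      refine ⟨(Finset.range (k * m)).filter (· ∈ B), ?_, ?_⟩
      · rw [Finset.mem_powerset]
        intro i hi
        rw [Finset.mem_filter] at hi ⊢
        exact ⟨hi.1, hB hi.2⟩
      · have h1 := ((x_summable h).indicator B).sum_add_tsum_nat_add (k * m)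
        have h2 : ∑ i ∈ Finset.range (k * m), B.indicator (x k a) i =
            ∑ i ∈ (Finset.range (k * m)).filter (· ∈ B), x k a i := by
          rw [Finset.sum_filter]
          exact Finset.sum_congr rfl fun i hi => by rw [Set.indicator_apply]
        have h3 : 0 ≤ ∑' i, B.indicator (x k a) (i + k * m) :=
          tsum_nonneg fun i => Set.indicator_nonneg (fun n _ => (x_pos h n).le) _
        have h4 : ∑' i, B.indicator (x k a) (i + k * m) ≤ T k a / (2 ^ k) ^ m := by
          rw [← tsum_tail h.hk]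
          refine Summable.tsum_le_tsum (fun i => ?_)
            ((summable_nat_add_iff (k * m)).2 ((x_summable h).indicator B))
            ((summable_nat_add_iff (k * m)).2 (x_summable h))
          exact Set.indicator_le_self' (fun n _ => (x_pos h n).le) _
        rw [← h1, h2]
        constructor <;> linarith
    refine (MeasureTheory.measure_mono hsub).trans
      ((MeasureTheory.measure_biUnion_finset_le _ _).trans ?_)
    have h5 : ∀ F ∈ P.powerset,
        MeasureTheory.volume (Set.Icc (∑ i ∈ F, x k a i)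
          (∑ i ∈ F, x k a i + T k a / (2 ^ k) ^ m)) = ENNReal.ofReal (T k a / (2 ^ k) ^ m) := by
      intro F _
      rw [Real.volume_Icc]
      congr 1
      ring
    rw [Finset.sum_congr rfl h5, Finset.sum_const, Finset.card_powerset, nsmul_eq_mul]
    rw [← ENNReal.ofReal_natCast, ← ENNReal.ofReal_mul (by positivity)]
    apply ENNReal.ofReal_le_ofReal
    push_cast
    rw [← mul_div_assoc, div_le_div_iff₀ (by positivity) (by positivity)]
    have h9 : (2 : ℝ) ^ P.card * 2 ^ j ≤ (2 ^ k) ^ m := by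
      rw [← pow_add, ← pow_mul]
      exact pow_le_pow_right₀ (by norm_num) hcard
    nlinarith
  by_contra hne
  have hpos : 0 < MeasureTheory.volume
      {s : ℝ | ∃ B : Set ℕ, B ⊆ Aᶜ ∧ s = ∑' n, B.indicator (x k a) n} := pos_iff_ne_zero.2 hne
  have hfin : MeasureTheory.volume
      {s : ℝ | ∃ B : Set ℕ, B ⊆ Aᶜ ∧ s = ∑' n, B.indicator (x k a) n} ≠ ⊤ :=
    ne_top_of_le_ne_top ENNReal.ofReal_ne_top (key 0)
  set v := (MeasureTheory.volume
      {s : ℝ | ∃ B : Set ℕ, B ⊆ Aᶜ ∧ s = ∑' n, B.indicator (x k a) n}).toReal with hv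
  have hv0 : 0 < v := ENNReal.toReal_pos hne hfin
  obtain ⟨j, hj⟩ := exists_pow_lt_of_lt_one (show 0 < v / T k a by positivity)
    (show (1 / 2 : ℝ) < 1 by norm_num)
  have h1 := ENNReal.toReal_mono ENNReal.ofReal_ne_top (key j)
  rw [ENNReal.toReal_ofReal (by positivity), ← hv] at h1
  rw [one_div, inv_pow, lt_div_iff₀ hT] at hj
  rw [div_eq_mul_inv, mul_comm] at h1
  linarith

theorem no_homeo (h : Digits k a) (A : Set ℕ) (hA : A.Infinite) (S : Set ℝ) (u v : ℝ) (huv : u < v)
    (hI : Set.Icc u v ⊆ S)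
    (φ : {s : ℝ | ∃ B : Set ℕ, B ⊆ Aᶜ ∧ s = ∑' n, B.indicator (x k a) n} ≃ₜ S) : False := by
  set T := {s : ℝ | ∃ B : Set ℕ, B ⊆ Aᶜ ∧ s = ∑' n, B.indicator (x k a) n} with hT
  let g : Set.Icc u v → ℝ := fun t => (φ.symm ⟨t.1, hI t.2⟩ : ℝ)
  have hg : Continuous g := by
    apply continuous_subtype_val.comp
    apply φ.symm.continuous.comp
    exact Continuous.subtype_mk continuous_subtype_val _
  have : PreconnectedSpace (Set.Icc u v) := Subtype.preconnectedSpace isPreconnected_Icc
  have hpre : IsPreconnected (Set.range g) := isPreconnected_range hg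
  have hsub : Set.range g ⊆ T := by
    rintro _ ⟨t, rfl⟩
    exact (φ.symm ⟨t.1, hI t.2⟩).2
  let a' : Set.Icc u v := ⟨u, le_rfl, huv.le⟩
  let b' : Set.Icc u v := ⟨v, huv.le, le_rfl⟩
  have hne : g a' ≠ g b' := by
    intro h
    have h1 := Subtype.ext h
    have h2 := φ.symm.injective h1
    have h3 : u = v := congrArg Subtype.val h2
    linarith
  have hnull := null_of_infinite h A hA
  rw [← hT] at hnull
  rcases lt_or_gt_of_ne hne with h | h
  · have h1 : Set.Icc (g a') (g b') ⊆ T :=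
      (hpre.Icc_subset (Set.mem_range_self a') (Set.mem_range_self b')).trans hsub
    have h2 := MeasureTheory.measure_mono_null h1 hnull
    rw [Real.volume_Icc, ENNReal.ofReal_eq_zero] at h2
    linarith
  · have h1 : Set.Icc (g b') (g a') ⊆ T :=
      (hpre.Icc_subset (Set.mem_range_self b') (Set.mem_range_self a')).trans hsub
    have h2 := MeasureTheory.measure_mono_null h1 hnull
    rw [Real.volume_Icc, ENNReal.ofReal_eq_zero] at h2
    linarith

/-- The condition `x n < r (n + 1)` for the index `n = i + k m`, `i ≤ k - 2`. -/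
theorem lt_tail_iff (h : Digits k a) (i m : ℕ) (hi : i + 1 < k) :
    x k a (i + k * m) < ∑' j, x k a (i + k * m + 2 + j) ↔
      (2 ^ k - 1) * a i < (2 ^ k - 1) * (∑ j ∈ Ico (i + 2) k, a j) + ∑ j ∈ range k, a j := by
  have hq := one_lt_q h
  have hp : (0 : ℝ) < (2 ^ k) ^ m := by positivity
  have h1 : ∑' j, x k a (i + k * m + 2 + j) = (∑' j, x k a (j + (i + 2))) / (2 ^ k) ^ m := by
    rw [← tsum_div_const]
    refine tsum_congr fun j => ?_
    rw [← x_shift h.hk]
    congr 1
    ring
  have h2 := (x_summable h).sum_add_tsum_nat_add (i + 2)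
  have h3 : ∑ j ∈ range (i + 2), x k a j = ∑ j ∈ range (i + 2), (a j : ℝ) :=
    sum_congr rfl fun j hj => x_small j (by have := mem_range.1 hj; omega)
  have h4 : ∑ j ∈ range (i + 2), (a j : ℝ) + ∑ j ∈ Ico (i + 2) k, (a j : ℝ)
      = ∑ j ∈ range k, (a j : ℝ) := sum_range_add_sum_Ico _ (by omega)
  have h5 := T_eq h
  rw [h3, ← T] at h2
  rw [h1, x_shift h.hk, x_small _ (by omega), div_lt_div_iff_of_pos_right hp]
  have h8 : ∑' j, x k a (j + (i + 2)) = ∑ j ∈ Ico (i + 2) k, (a j : ℝ) + T k a / 2 ^ k := by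
    linarith
  have h9 : T k a = T k a / 2 ^ k * 2 ^ k := by field_simp
  rw [h8]
  set s := T k a / 2 ^ k
  have h10 : (a i : ℝ) < ∑ j ∈ Ico (i + 2) k, (a j : ℝ) + s ↔
      (2 ^ k - 1) * (a i : ℝ) < (2 ^ k - 1) * (∑ j ∈ Ico (i + 2) k, (a j : ℝ) + s) :=
    (mul_lt_mul_iff_right₀ (by linarith)).symm
  have h11 : (2 ^ k - 1) * (∑ j ∈ Ico (i + 2) k, (a j : ℝ) + s)
      = (2 ^ k - 1) * (∑ j ∈ Ico (i + 2) k, (a j : ℝ)) + ∑ j ∈ range k, (a j : ℝ) := by
    linarith
  rw [h10, h11]
  have h7 : ((((2 ^ k - 1) * a i : ℕ) : ℝ) < (((2 ^ k - 1) * (∑ j ∈ Ico (i + 2) k, a j)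
      + ∑ j ∈ range k, a j : ℕ) : ℝ)) ↔ (2 ^ k - 1) * a i < (2 ^ k - 1) * (∑ j ∈ Ico (i + 2) k, a j)
      + ∑ j ∈ range k, a j := Nat.cast_lt
  rw [← h7]
  push_cast [Nat.cast_sub (Nat.one_le_two_pow (n := k))]
  exact Iff.rfl

/-- The condition `x n < r (n + 1)` never holds for `n = k - 1 + k m`. -/
theorem not_lt_tail (h : Digits k a) (m : ℕ) :
    ¬ x k a (k - 1 + k * m) < ∑' j, x k a (k - 1 + k * m + 2 + j) := by
  have hk := h.hk
  have hp : (0 : ℝ) < (2 ^ k) ^ m := by positivity
  rw [not_lt, x_shift h.hk, x_small _ (by omega)]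
  have h1 : ∑' j, x k a (k - 1 + k * m + 2 + j) ≤ ∑' j, x k a (j + k * (m + 1)) := by
    have e1 : ∀ j, k - 1 + k * m + 2 + j = (j + 1) + k * (m + 1) := by
      intro j
      rw [mul_add, mul_one]; omega
    have hs : Summable (fun j => x k a (j + k * (m + 1))) :=
      (summable_nat_add_iff (k * (m + 1))).2 (x_summable h)
    have e2 := hs.sum_add_tsum_nat_add 1
    rw [Finset.sum_range_one] at e2
    have e3 : ∑' j, x k a (k - 1 + k * m + 2 + j) = ∑' j, x k a ((j + 1) + k * (m + 1)) :=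
      tsum_congr fun j => by rw [e1]
    rw [e3, ← e2]
    have := x_pos h (0 + k * (m + 1))
    linarith
  refine h1.trans ?_
  rw [tsum_tail h.hk, pow_succ', ← div_div, div_le_div_iff_of_pos_right hp]
  exact (tau_lt h).le

theorem infinite_iff (h : Digits k a) : {n : ℕ | x k a n < ∑' j, x k a (n + 2 + j)}.Infinite ↔
    ∃ i, i + 1 < k ∧ (2 ^ k - 1) * a i
      < (2 ^ k - 1) * (∑ j ∈ Ico (i + 2) k, a j) + ∑ j ∈ range k, a j := by
  constructor
  · intro hinf
    obtain ⟨n, hn⟩ := hinf.nonempty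
    have hn' : x k a n < ∑' j, x k a (n + 2 + j) := hn
    obtain ⟨m, r, hr, rfl⟩ : ∃ m r, r < k ∧ n = r + k * m :=
      ⟨n / k, n % k, Nat.mod_lt _ h.hk, by rw [Nat.add_comm]; exact (Nat.div_add_mod n k).symm⟩
    by_cases hr1 : r + 1 < k
    · exact ⟨r, hr1, (lt_tail_iff h r m hr1).1 hn'⟩
    · have hrk : r = k - 1 := by omega
      rw [hrk] at hn'
      exact absurd hn' (not_lt_tail h m)
  · rintro ⟨i, hi, hlt⟩
    apply Set.infinite_of_injective_forall_mem (f := fun m : ℕ => i + k * m)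
    · intro b c hbc
      have h1 : k * b = k * c := by simpa using hbc
      exact Nat.eq_of_mul_eq_mul_left h.hk h1
    · intro m
      exact (lt_tail_iff h i m hi).2 hlt

/-! ### A family -/

/-- numbers with the 2-adic valuations `0, …, k - 1` have all residues as subset sums -/
theorem res_of_val (b c : ℕ → ℕ) (hb : ∀ j, b j = 2 ^ j * (2 * c j + 1)) (k : ℕ) :
    ∀ r < 2 ^ k, ∃ G ⊆ range k, (∑ i ∈ G, b i) % 2 ^ k = r := by
  induction k with
  | zero =>
    intro r hr
    refine ⟨∅, by simp, ?_⟩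
    simp at hr ⊢
    exact hr.symm
  | succ k ih =>
    intro r hr
    obtain ⟨G, hG, hGr⟩ := ih (r % 2 ^ k) (Nat.mod_lt _ (by positivity))
    have hp : 0 < 2 ^ k := by positivity
    have hpow : 2 ^ (k + 1) = 2 * 2 ^ k := by ring
    set S := ∑ i ∈ G, b i with hS
    -- `S = 2^k u + r0`, `r = 2^k v + r0`
    obtain ⟨u, hu⟩ : ∃ u, S = 2 ^ k * u + r % 2 ^ k := ⟨S / 2 ^ k, by
      rw [← hGr]; exact (Nat.div_add_mod S (2 ^ k)).symm⟩
    obtain ⟨v, hv⟩ : ∃ v, r = 2 ^ k * v + r % 2 ^ k := ⟨r / 2 ^ k, (Nat.div_add_mod r (2 ^ k)).symm⟩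
    have hr0 : r % 2 ^ k < 2 ^ k := Nat.mod_lt _ hp
    have hv2 : v < 2 := by
      by_contra hcon
      push Not at hcon
      have : 2 ^ k * 2 ≤ 2 ^ k * v := Nat.mul_le_mul_left _ hcon
      omega
    by_cases hpar : u % 2 = v
    · refine ⟨G, hG.trans (range_mono (Nat.le_succ k)), ?_⟩
      rw [← hS, hu]
      have h1 : 2 ^ k * u + r % 2 ^ k = r + 2 ^ (k + 1) * (u / 2) := by
        rw [hpow]
        have h2 := Nat.div_add_mod u 2
        rw [hpar] at h2
        have h3 : 2 ^ k * u = 2 ^ k * (2 * (u / 2) + v) := by rw [h2]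
        rw [h3]
        have h4 : 2 ^ k * (2 * (u / 2) + v) = 2 * 2 ^ k * (u / 2) + 2 ^ k * v := by ring
        omega
      rw [h1, Nat.add_mul_mod_self_left, Nat.mod_eq_of_lt hr]
    · refine ⟨insert k G, ?_, ?_⟩
      · intro i hi
        rcases Finset.mem_insert.1 hi with rfl | hi
        · exact Finset.mem_range.2 (Nat.lt_succ_self _)
        · exact Finset.mem_range.2 ((Finset.mem_range.1 (hG hi)).trans (Nat.lt_succ_self _))
      · rw [Finset.sum_insert (fun hk => absurd (Finset.mem_range.1 (hG hk)) (lt_irrefl _)),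
          ← hS, hu, hb]
        obtain ⟨w, hw⟩ : ∃ w, u + 1 = 2 * w + v := ⟨(u + 1) / 2, by omega⟩
        have h1 : 2 ^ k * (2 * c k + 1) + (2 ^ k * u + r % 2 ^ k)
            = r + 2 ^ (k + 1) * (c k + w) := by
          have h2 : 2 ^ k * (2 * c k + 1) + (2 ^ k * u + r % 2 ^ k)
              = 2 ^ k * (2 * c k) + 2 ^ k * (u + 1) + r % 2 ^ k := by ring
          rw [h2, hw, hpow]
          have h4 : 2 ^ k * (2 * c k) + 2 ^ k * (2 * w + v) = 2 * 2 ^ k * (c k + w) + 2 ^ k * v := by
            ring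
          omega
        rw [h1, Nat.add_mul_mod_self_left, Nat.mod_eq_of_lt hr]

/-- The digits `2^(k-1) + 2^(k-2), …, 2^(k-1) + 1, 2^(k-1)`. -/
def fam (k : ℕ) (i : ℕ) : ℕ := if i + 1 < k then 2 ^ (k - 1) + 2 ^ (k - 2 - i) else 2 ^ (k - 1)

theorem fam_sum (m : ℕ) : ∑ i ∈ range (m + 1), fam (m + 1) i + 1 = (m + 2) * 2 ^ m := by
  rw [sum_range_succ]
  have h1 : ∑ i ∈ range m, fam (m + 1) i = ∑ i ∈ range m, (2 ^ m + 2 ^ (m - 1 - i)) := by
    refine sum_congr rfl fun i hi => ?_
    have := mem_range.1 hi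
    unfold fam
    rw [if_pos (by omega)]
    congr 2
  have h2 : ∑ i ∈ range m, 2 ^ (m - 1 - i) = ∑ i ∈ range m, 2 ^ i :=
    sum_range_reflect (fun i => 2 ^ i) m
  have h3 : ∑ i ∈ range m, 2 ^ i + 1 = 2 ^ m := by
    have := Nat.geomSum_eq (le_refl 2) m
    rw [this]
    have h4 : 1 ≤ 2 ^ m := Nat.one_le_two_pow
    simp
    omega
  have h5 : fam (m + 1) m = 2 ^ m := by unfold fam; rw [if_neg (by omega)]; rfl
  rw [h1, h5, sum_add_distrib, sum_const, card_range, smul_eq_mul, h2]
  have h6 : (m + 2) * 2 ^ m = m * 2 ^ m + 2 ^ m + 2 ^ m := by ring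
  omega

theorem fam_digits (m : ℕ) (hm : 1 ≤ m) : Digits (m + 1) (fam (m + 1)) where
  hk := Nat.succ_pos m
  hpos := by
    intro i _
    unfold fam
    split_ifs <;> positivity
  hanti := by
    intro i hi
    unfold fam
    rw [if_pos hi]
    split_ifs with h
    · have : 2 ^ (m + 1 - 2 - (i + 1)) ≤ 2 ^ (m + 1 - 2 - i) :=
        Nat.pow_le_pow_right (by norm_num) (by omega)
      omega
    · exact Nat.le_add_right _ _
  hwrap := by
    unfold fam
    rw [if_pos (by omega), if_neg (by omega)]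
    have h1 : 2 ^ (m + 1 - 2 - 0) ≤ 2 ^ (m + 1 - 1) := Nat.pow_le_pow_right (by norm_num) (by omega)
    have h2 : 2 ^ (m + 1 - 1) * 2 ≤ 2 ^ (m + 1 - 1) * 2 ^ (m + 1) := by
      refine Nat.mul_le_mul_left _ ?_
      calc 2 = 2 ^ 1 := by norm_num
        _ ≤ 2 ^ (m + 1) := Nat.pow_le_pow_right (by norm_num) (by omega)
    rw [mul_comm (2 ^ (m + 1))]
    omega
  hres := by
    intro r hr
    let b : ℕ → ℕ := fun j => if j < m then 2 ^ m + 2 ^ j else 2 ^ j
    obtain ⟨G, hG, hGr⟩ := res_of_val b (fun j => if j < m then 2 ^ (m - 1 - j) else 0) (by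
      intro j
      simp only [b]
      split_ifs with h
      · have h1 : 2 ^ m = 2 ^ j * (2 * 2 ^ (m - 1 - j)) := by
          rw [← pow_succ', ← pow_add]
          congr 1
          omega
        rw [h1]; ring
      · ring) (m + 1) r hr
    let τ : ℕ → ℕ := fun j => if j < m then m - 1 - j else j
    refine ⟨G.image τ, ?_, ?_⟩
    · intro i hi
      obtain ⟨j, hj, rfl⟩ := Finset.mem_image.1 hi
      have := Finset.mem_range.1 (hG hj)
      rw [Finset.mem_range]
      simp only [τ]
      split_ifs <;> omega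
    · rw [Finset.sum_image]
      · rw [← hGr]
        congr 1
        refine sum_congr rfl fun j hj => ?_
        have hj' := Finset.mem_range.1 (hG hj)
        simp only [τ, b, fam]
        by_cases h : j < m
        · rw [if_pos h, if_pos h, if_pos (by omega)]
          congr 2
          omega
        · have : j = m := by omega
          rw [if_neg h, if_neg h, if_neg (by omega), this]
          rfl
      · intro i hi j hj hij
        have hi' := Finset.mem_range.1 (hG hi)
        have hj' := Finset.mem_range.1 (hG hj)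
        simp only [τ] at hij
        split_ifs at hij <;> omega
  hgap := by
    have h1 := fam_sum m
    have h2 : fam (m + 1) (m + 1 - 1) = 2 ^ m := by unfold fam; rw [if_neg (by omega)]; rfl
    rw [h2]
    have h3 : m + 2 ≤ 2 ^ (m + 1) - 1 := by
      have : m + 3 ≤ 2 ^ (m + 1) := by
        clear h1 h2
        induction m, hm using Nat.le_induction with
        | base => norm_num
        | succ n _ ih => rw [pow_succ]; omega
      omega
    have h4 : (m + 2) * 2 ^ m ≤ (2 ^ (m + 1) - 1) * 2 ^ m := Nat.mul_le_mul_right _ h3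
    omega

theorem fam_often (m : ℕ) (hm : 2 ≤ m) : ∃ i, i + 1 < m + 1 ∧ (2 ^ (m + 1) - 1) * fam (m + 1) i
      < (2 ^ (m + 1) - 1) * (∑ j ∈ Ico (i + 2) (m + 1), fam (m + 1) j)
        + ∑ j ∈ range (m + 1), fam (m + 1) j := by
  refine ⟨0, by omega, ?_⟩
  by_cases h3 : 3 ≤ m
  · have h1 : fam (m + 1) 0 ≤ ∑ j ∈ Ico (0 + 2) (m + 1), fam (m + 1) j := by
      have hsub : ({2, m} : Finset ℕ) ⊆ Ico (0 + 2) (m + 1) := by
        intro i hi
        rw [Finset.mem_insert, Finset.mem_singleton] at hi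
        rw [Finset.mem_Ico]
        omega
      refine le_trans ?_ (Finset.sum_le_sum_of_subset hsub)
      rw [Finset.sum_pair (by omega)]
      unfold fam
      rw [if_pos (by omega), if_pos (by omega), if_neg (by omega)]
      have : 2 ^ (m + 1 - 2 - 0) ≤ 2 ^ (m + 1 - 1) := Nat.pow_le_pow_right (by norm_num) (by omega)
      have h0 : 0 < 2 ^ (m + 1 - 2 - 2) := by positivity
      omega
    have h2 := Nat.mul_le_mul_left (2 ^ (m + 1) - 1) h1
    have h4 : 0 < ∑ j ∈ range (m + 1), fam (m + 1) j := by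
      refine Finset.sum_pos (fun i _ => ?_) ⟨0, by simp⟩
      unfold fam
      split_ifs <;> positivity
    omega
  · have : m = 2 := by omega
    subst this
    decide

open Pool.Agent.R559 in
/-- **Minimal representations of Cantorvals.**  Let `a 0 ≥ ⋯ ≥ a (k-1) > 0` be integers with
`a 0 ≤ 2^k a (k-1)` whose subset sums represent all residues modulo `2^k`, and with
`∑ a i < (2^k - 1) a (k-1)`.  Then the sequence of all `a i / 2^(k m)` is a minimal representation
of a Cantorval; one has `x n < r (n+1)` for infinitely many `n` if and only if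
`(2^k - 1) a i < (2^k - 1) (a (i+2) + ⋯ + a (k-1)) + ∑ a` for some `i ≤ k - 2`.  For every `k ≥ 3`
the digits `2^(k-1) + 2^(k-2), …, 2^(k-1) + 1, 2^(k-1)` satisfy all these conditions. -/
theorem result :
    (∀ (k : ℕ) (a : ℕ → ℕ), Digits k a →
      IsCantorval (subsums (x k a) Set.univ) ∧
      IsRepresentation (x k a) (subsums (x k a) Set.univ) ∧
      IsMinimal (x k a) (subsums (x k a) Set.univ) ∧
      ({n : ℕ | x k a n < tail (x k a) (n + 1)}.Infinite ↔
        ∃ i, i + 1 < k ∧ (2 ^ k - 1) * a i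
          < (2 ^ k - 1) * (∑ j ∈ Ico (i + 2) k, a j) + ∑ j ∈ range k, a j)) ∧
    (∀ k : ℕ, 3 ≤ k → Digits k (fam k) ∧
      {n : ℕ | x k (fam k) n < tail (x k (fam k)) (n + 1)}.Infinite) := by
  have htail : ∀ (k : ℕ) (a : ℕ → ℕ), {n : ℕ | x k a n < tail (x k a) (n + 1)}
      = {n : ℕ | x k a n < ∑' j, x k a (n + 2 + j)} := fun k a => rfl
  constructor
  · intro k a h
    have hE : subsums (x k a) Set.univ = E (x k a) := by
      ext s
      simp [subsums, E]
    have hcomp := gE_compact (x_pos h) (x_summable h)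
    obtain ⟨u, v, huv, hint⟩ := exists_interval h
    rw [hE]
    refine ⟨⟨?_, hcomp, regular h, ?_⟩,
      ⟨x_pos h, x_antitone h, x_summable h, hE.symm⟩, ?_, ?_⟩
    · exact ⟨u, hint ⟨le_rfl, huv.le⟩⟩
    · intro p hp hnt
      have h0 := endpoints (x_pos h) (x_summable h) (H h) p hp hnt
      have hcc : IsClosed (connectedComponentIn (E (x k a)) p) := by
        rw [← closure_eq_iff_isClosed]
        apply Set.Subset.antisymm _ subset_closure
        apply isPreconnected_connectedComponentIn.closure.subset_connectedComponentIn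
          (subset_closure (mem_connectedComponentIn hp))
        exact closure_minimal (connectedComponentIn_subset _ _) hcomp.isClosed
      have hne : (connectedComponentIn (E (x k a)) p).Nonempty :=
        ⟨p, mem_connectedComponentIn hp⟩
      have hlow : BddBelow (connectedComponentIn (E (x k a)) p) :=
        hcomp.bddBelow.mono (connectedComponentIn_subset _ _)
      have hup : BddAbove (connectedComponentIn (E (x k a)) p) :=
        hcomp.bddAbove.mono (connectedComponentIn_subset _ _)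
      have key : ∀ b ∈ connectedComponentIn (E (x k a)) p,
          b ∈ closure {y ∈ E (x k a) | connectedComponentIn (E (x k a)) y = {y}} →
          AccPt b (Filter.principal {y | y ∈ E (x k a) ∧
            connectedComponentIn (E (x k a)) y = {y}}) := by
        intro b hb hcl
        rw [accPt_principal_iff_clusterPt, ← mem_closure_iff_clusterPt, Set.sdiff_singleton_eq_self]
        · exact hcl
        · rintro ⟨_, h1⟩
          rw [← connectedComponentIn_eq hb] at h1
          obtain ⟨c, hc, hcb⟩ := hnt.exists_ne b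
          rw [h1] at hc
          exact hcb hc
      exact ⟨key _ (hcc.csInf_mem hne hlow) h0.1, key _ (hcc.csSup_mem hne hup) h0.2⟩
    · intro A hA
      exact ⟨fun φ => no_homeo h A hA _ u v huv hint φ⟩
    · rw [htail]
      exact infinite_iff h
  · intro k hk
    obtain ⟨m, rfl⟩ := Nat.exists_eq_add_of_le' (show 1 ≤ k by omega)
    refine ⟨fam_digits m (by omega), ?_⟩
    rw [htail]
    exact (infinite_iff (fam_digits m (by omega))).2 (fam_often m (by omega))

end Pool.Agent.Results.MP_61d686_an.CompleteResidueDigits
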